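import Mathlib
import Pool.Agent.H24.AP.Count

set_option autoImplicit false

namespace Pool.Agent.Results.MP_2609f0_co.AlmostAllColourings

/-- The points `p 0, ..., p (N-1)` of the plane are distinct and no three of them are collinear. -/
def GeneralPosition {N : ℕ} (p : Fin N → ℝ × ℝ) : Prop :=
  Function.Injective p ∧
    ∀ i j k : Fin N, i ≠ j → j ≠ k → i ≠ k → ¬ Collinear ℝ ({p i, p j, p k} : Set (ℝ × ℝ))

/-- A balanced three-colouring of `3n` points: each of the three colours is used `n` times. -/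
def Balanced (n : ℕ) (c : Fin (3 * n) → Fin 3) : Prop :=
  ∀ i : Fin 3, Set.ncard {x | c x = i} = n

/-- `p (v 0), ..., p (v (m-1))` is a simple polygonal path: the vertices are distinct, two segments
which are not consecutive are disjoint, and two consecutive segments meet only in the common
vertex. -/
structure SimplePath {N : ℕ} (p : Fin N → ℝ × ℝ) (m : ℕ) (v : ℕ → Fin N) : Prop where
  distinct : ∀ i < m, ∀ j < m, v i = v j → i = j
  disjoint : ∀ i j, i + 1 < j → j + 1 < m →
    Disjoint (segment ℝ (p (v i)) (p (v (i + 1)))) (segment ℝ (p (v j)) (p (v (j + 1))))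
  consecutive : ∀ i, i + 2 < m →
    segment ℝ (p (v i)) (p (v (i + 1))) ∩ segment ℝ (p (v (i + 1))) (p (v (i + 2))) =
      {p (v (i + 1))}

/-- There is a simple alternating path with at least `L` vertices: consecutive vertices have
different colours. -/
def HasPath {N : ℕ} (p : Fin N → ℝ × ℝ) (c : Fin N → Fin 3) (L : ℝ) : Prop :=
  ∃ (m : ℕ) (v : ℕ → Fin N), L ≤ m ∧ SimplePath p m v ∧ ∀ i, i + 1 < m → c (v i) ≠ c (v (i + 1))

/-- For EVERY set of `3n` points in general position, all but an exponentially small proportion of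
the balanced three-colourings have a simple alternating path with at least `(8/3 - ε) n`
vertices. -/
theorem result (ε : ℝ) (hε : 0 < ε) (hε1 : ε ≤ 1) (n : ℕ) (hn : 1 ≤ n)
    (p : Fin (3 * n) → ℝ × ℝ) (hp : GeneralPosition p) :
    (Set.ncard {c | Balanced n c ∧ ¬ HasPath p c ((8 / 3 - ε) * n)} : ℝ) ≤
      80 * ((n : ℝ) + 1) ^ 2 * Real.exp (-(ε ^ 2 * n / 20)) * (Set.ncard {c | Balanced n c} : ℝ) := by
  classical
  have he : ∀ (c : Fin (3 * n) → Fin 3) (i : Fin 3),
      Set.ncard {x | c x = i} = (Finset.univ.filter (fun x => c x = i)).card := by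
    intro c i
    rw [← Set.ncard_coe_finset]
    congr 1
    ext x
    simp
  have hb : ∀ c : Fin (3 * n) → Fin 3, Balanced n c ↔ c ∈ H24.AP.bal n := by
    intro c
    unfold Balanced H24.AP.bal
    rw [Finset.mem_filter]
    constructor
    · intro h
      exact ⟨Finset.mem_univ _, fun i => (he c i).symm.trans (h i)⟩
    · rintro ⟨_, h⟩ i
      exact (he c i).trans (h i)
  have h1 : {c | Balanced n c} = ((H24.AP.bal n : Finset (Fin (3 * n) → Fin 3)) : Set _) := by
    ext c
    exact hb c
  have h2 : {c | Balanced n c ∧ ¬ HasPath p c ((8 / 3 - ε) * n)} =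
      (((H24.AP.bal n).filter (fun c => ¬ HasPath p c ((8 / 3 - ε) * n)) :
        Finset (Fin (3 * n) → Fin 3)) : Set _) := by
    ext c
    rw [Finset.coe_filter]
    constructor
    · rintro ⟨h3, h4⟩
      exact ⟨(hb c).1 h3, h4⟩
    · rintro ⟨h3, h4⟩
      exact ⟨(hb c).2 h3, h4⟩
  rw [h1, h2, Set.ncard_coe_finset, Set.ncard_coe_finset]
  refine H24.AP.almost_all ε hε hε1 n hn p hp.1 hp.2 _ ?_
  rintro c hc ⟨m, v, h3, h4, h5⟩
  exact (Finset.mem_filter.1 hc).2 ⟨m, v, h3, ⟨h4.inj, h4.far, h4.near⟩, h5⟩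

end Pool.Agent.Results.MP_2609f0_co.AlmostAllColourings
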