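import Mathlib
import Pool.Agent.H24.AP.Sep

set_option autoImplicit false

namespace Pool.Agent.Results.MP_2609f0_co.GeneralPositionBound

/-- The points `p 0, ..., p (N-1)` of the plane are distinct and no three of them are collinear. -/
def GeneralPosition {N : ℕ} (p : Fin N → ℝ × ℝ) : Prop :=
  Function.Injective p ∧
    ∀ i j k : Fin N, i ≠ j → j ≠ k → i ≠ k → ¬ Collinear ℝ ({p i, p j, p k} : Set (ℝ × ℝ))

/-- A balanced three-colouring of `3n` points: each of the three colours is used `n` times. -/
def Balanced (n : ℕ) (c : Fin (3 * n) → Fin 3) : Prop :=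
  ∀ i : Fin 3, Set.ncard {x | c x = i} = n

/-- `p (v 0), ..., p (v (m-1))` is a simple polygonal path: the vertices are distinct, two segments
which are not consecutive are disjoint, and two consecutive segments meet only in the common
vertex. -/
structure SimplePath {N : ℕ} (p : Fin N → ℝ × ℝ) (m : ℕ) (v : ℕ → Fin N) : Prop where
  distinct : ∀ i < m, ∀ j < m, v i = v j → i = j
  disjoint : ∀ i j, i + 1 < j → j + 1 < m →
    Disjoint (segment ℝ (p (v i)) (p (v (i + 1)))) (segment ℝ (p (v j)) (p (v (j + 1))))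
  consecutive : ∀ i, i + 2 < m →
    segment ℝ (p (v i)) (p (v (i + 1))) ∩ segment ℝ (p (v (i + 1))) (p (v (i + 2))) =
      {p (v (i + 1))}

/-- Every balanced three-coloured set of `3n` points in general position has a simple alternating
path with at least `(4n+2)/3` vertices. -/
theorem result (n : ℕ) (hn : 1 ≤ n) (p : Fin (3 * n) → ℝ × ℝ) (hp : GeneralPosition p)
    (c : Fin (3 * n) → Fin 3) (hc : Balanced n c) :
    ∃ (m : ℕ) (v : ℕ → Fin (3 * n)), 4 * n + 2 ≤ 3 * m ∧ SimplePath p m v ∧
      ∀ i, i + 1 < m → c (v i) ≠ c (v (i + 1)) := by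
  have he : ∀ i : Fin 3, (Finset.univ.filter (fun x => c x = i)).card = n := by
    intro i
    refine Eq.trans ?_ (hc i)
    rw [← Set.ncard_coe_finset]
    congr 1
    ext x
    simp
  obtain ⟨m, v, h1, h2, h3⟩ := H24.AP.general n hn hp.2 hp.1 c he
  exact ⟨m, v, h1, ⟨h2.inj, h2.far, h2.near⟩, h3⟩

end Pool.Agent.Results.MP_2609f0_co.GeneralPositionBound
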