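import Mathlib
import Pool.Agent.H24.AP.Zig

set_option autoImplicit false

namespace Pool.Agent.Results.MP_2609f0_co.InterlacingOrders

/-- The points `p 0, ..., p (N-1)` of the plane are distinct and no three of them are collinear. -/
def GeneralPosition {N : ℕ} (p : Fin N → ℝ × ℝ) : Prop :=
  Function.Injective p ∧
    ∀ i j k : Fin N, i ≠ j → j ≠ k → i ≠ k → ¬ Collinear ℝ ({p i, p j, p k} : Set (ℝ × ℝ))

/-- In the cyclic order `p 0, ..., p (N-1)` crossing segments interlace: for `i < j < k < l` only
the segments `p i p k` and `p j p l` may cross. -/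
def Interlacing {N : ℕ} (p : Fin N → ℝ × ℝ) : Prop :=
  ∀ i j k l : Fin N, i < j → j < k → k < l →
    Disjoint (segment ℝ (p i) (p j)) (segment ℝ (p k) (p l)) ∧
      Disjoint (segment ℝ (p i) (p l)) (segment ℝ (p j) (p k))

/-- A balanced three-colouring of `3n` points: each of the three colours is used `n` times. -/
def Balanced (n : ℕ) (c : Fin (3 * n) → Fin 3) : Prop :=
  ∀ i : Fin 3, Set.ncard {x | c x = i} = n

/-- `p (v 0), ..., p (v (m-1))` is a simple polygonal path: the vertices are distinct, two segments
which are not consecutive are disjoint, and two consecutive segments meet only in the common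
vertex. -/
structure SimplePath {N : ℕ} (p : Fin N → ℝ × ℝ) (m : ℕ) (v : ℕ → Fin N) : Prop where
  distinct : ∀ i < m, ∀ j < m, v i = v j → i = j
  disjoint : ∀ i j, i + 1 < j → j + 1 < m →
    Disjoint (segment ℝ (p (v i)) (p (v (i + 1)))) (segment ℝ (p (v j)) (p (v (j + 1))))
  consecutive : ∀ i, i + 2 < m →
    segment ℝ (p (v i)) (p (v (i + 1))) ∩ segment ℝ (p (v (i + 1))) (p (v (i + 2))) =
      {p (v (i + 1))}

/-- Let `P` be `3n` points in general position with a cyclic order in which crossing segments
interlace (for instance a set in convex position, or a double chain). Then every balanced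
three-colouring of `P` has a simple alternating path with at least `2n + 1` vertices. -/
theorem result (n : ℕ) (hn : 1 ≤ n) (p : Fin (3 * n) → ℝ × ℝ) (hp : GeneralPosition p)
    (hI : Interlacing p) (c : Fin (3 * n) → Fin 3) (hc : Balanced n c) :
    ∃ (m : ℕ) (v : ℕ → Fin (3 * n)), 2 * n + 1 ≤ m ∧ SimplePath p m v ∧
      ∀ i, i + 1 < m → c (v i) ≠ c (v (i + 1)) := by
  obtain ⟨m, v, h1, h2, h3⟩ := H24.AP.zig (by omega : 0 < 3 * n) hp.2 hI c
  refine ⟨m, v, ?_, ⟨h2.inj, h2.far, h2.near⟩, h3⟩
  have he : ∀ i : Fin 3, (Finset.univ.filter (fun x => c x = i)).card = n := by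
    intro i
    refine Eq.trans ?_ (hc i)
    rw [← Set.ncard_coe_finset]
    congr 1
    ext x
    simp
  have h4 : (Finset.univ.filter (fun xy : Fin (3 * n) × Fin (3 * n) => c xy.1 ≠ c xy.2)).card =
      3 * n * (2 * n) := by
    rw [Finset.card_filter, ← Finset.univ_product_univ, Finset.sum_product]
    have h5 : ∀ x ∈ (Finset.univ : Finset (Fin (3 * n))),
        (∑ y : Fin (3 * n), if c x ≠ c y then 1 else 0) = 2 * n := by
      intro x _
      rw [← Finset.card_filter]
      have h6 := Finset.card_filter_add_card_filter_not (s := (Finset.univ : Finset (Fin (3 * n))))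
        (fun y => c y = c x)
      rw [he (c x), Finset.card_univ, Fintype.card_fin] at h6
      have h7 : (Finset.univ.filter (fun y => c x ≠ c y)) =
          Finset.univ.filter (fun y => ¬ c y = c x) := by
        ext y
        simp only [Finset.mem_filter, Finset.mem_univ, true_and, ne_eq]
        exact not_congr eq_comm
      rw [h7]
      omega
    rw [Finset.sum_congr rfl h5, Finset.sum_const, Finset.card_univ, Fintype.card_fin, smul_eq_mul]
  rw [h4] at h1
  have h8 : 3 * n * (1 + 2 * n) ≤ 3 * n * m := by
    rw [mul_add, mul_one]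
    exact h1
  have := Nat.le_of_mul_le_mul_left h8 (by omega)
  omega

end Pool.Agent.Results.MP_2609f0_co.InterlacingOrders
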